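import Pool.Agent.Helper35.MS.StF

/-!
# Project MS (MP_925021_gt), module BLW: energy at the scale of the remaining time
-/

set_option autoImplicit false

namespace Helper16.MS

open Helper35.MS Helper35.PI Helper35.PI2 Helper32.CL
open scoped ContDiff Manifold Topology ENNReal BigOperators
open MeasureTheory Set Filter

private lemma anti_of_deriv {T : ℝ} {f g : ℝ → ℝ}
    (h : ∀ t ∈ Ioo 0 T, HasDerivAt f (-g t) t) (hg : ∀ t ∈ Ioo 0 T, 0 ≤ g t) :
    AntitoneOn f (Ioo 0 T) := by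
  refine antitoneOn_of_deriv_nonpos (convex_Ioo 0 T)
    (fun t ht => (h t ht).continuousAt.continuousWithinAt) ?_ ?_
  · intro t ht
    rw [interior_Ioo] at ht
    exact (h t ht).differentiableAt.differentiableWithinAt
  · intro t ht
    rw [interior_Ioo] at ht
    rw [(h t ht).deriv]
    linarith [hg t ht]

theorem hBLW (hLEV : StLEV) (hEPS : StEPS) (hENE : StENE) (hMUJ : StMUJ) : StBLW := by
  intro N M _ _ _ _ _ _ _ T F c χ δ hD hU
  obtain ⟨hT0, hsu, hpi, hgb⟩ := hD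
  have hδ := hpi.δ0
  have hene := hENE N M (Ioo 0 T) F c χ hsu
  have hd0 : ∀ t ∈ Ioo 0 T, 0 ≤ dI F c χ t := fun t ht =>
    integral_nonneg fun q => hpi.g0 q t ht
  have he0 : ∀ t ∈ Ioo 0 T, 0 ≤ eI F c χ t := fun t ht =>
    integral_nonneg fun q => hpi.th0 q t ht
  have hw0 : ∀ t, 0 ≤ wI F c χ t := fun t =>
    integral_nonneg fun q => by
      show 0 ≤ YF F q t
      unfold YF
      positivity
  have hea : AntitoneOn (eI F c χ) (Ioo 0 T) :=
    anti_of_deriv (fun t ht => (hene t ht).2.1) hd0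
  have hwa : AntitoneOn (wI F c χ) (Ioo 0 T) :=
    anti_of_deriv (fun t ht => (hene t ht).2.2.1) hd0
  have hne : (eI F c χ '' Ioo 0 T).Nonempty := (nonempty_Ioo.2 hT0).image _
  have hbd : BddBelow (eI F c χ '' Ioo 0 T) := by
    refine ⟨0, ?_⟩
    rintro _ ⟨t, ht, rfl⟩
    exact he0 t ht
  obtain ⟨_, ⟨ts, hts, rfl⟩, hlt⟩ := exists_lt_of_csInf_lt hne
    (show sInf (eI F c χ '' Ioo 0 T) < sInf (eI F c χ '' Ioo 0 T) + δ / 400 by linarith)
  refine ⟨ts, hts, fun t₁ ht₁ k hk hkw => ?_⟩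
  by_contra hcon
  rw [not_lt] at hcon
  have ht₁J : t₁ ∈ Ioo 0 T := ⟨hts.1.trans ht₁.1, ht₁.2⟩
  have hkey : ∀ t ∈ Ioo t₁ T, ∀ p, (t - t₁) * YF F p t ≤ 1 := by
    intro t ht p
    have hIcc : Icc t₁ t ⊆ Ioo 0 T := fun s hs => ⟨ht₁J.1.trans_le hs.1, hs.2.trans_lt ht.2⟩
    have h1 : ∀ s ∈ Icc t₁ t, wI F c χ s ≤ wI F c χ t₁ ∧ zI k F c χ s ≤ 1 / 100 := by
      intro s hs
      refine ⟨hwa ht₁J (hIcc hs) hs.1, ?_⟩
      have h2 := hLEV N M (Ioo 0 T) F c χ δ hsu hpi k t₁ s hk hs.1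
        (fun r hr => hIcc ⟨hr.1, hr.2.trans hs.2⟩)
      have h3 : eI F c χ t₁ ≤ eI F c χ ts := hea hts ht₁J ht₁.1.le
      have h4 : sInf (eI F c χ '' Ioo 0 T) ≤ eI F c χ s := csInf_le hbd ⟨s, hIcc hs, rfl⟩
      have h5 : eI F c χ t₁ / δ - eI F c χ s / δ ≤ 1 / 400 := by
        rw [← sub_div, div_le_iff₀ hδ]
        linarith
      have h6 : k * wI F c χ t₁ * (s - t₁) ≤ 1 / 400 := by
        refine le_trans ?_ hkw
        refine mul_le_mul_of_nonneg_left ?_ (mul_nonneg hk.le (hw0 t₁))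
        have := (hIcc hs).2
        linarith
      linarith
    have h2 := hEPS N M (Ioo 0 T) F c χ δ hsu hpi k (wI F c χ t₁) t₁ t hk ht.1 hIcc h1 p t
      (right_mem_Icc.2 ht.1.le)
    refine h2.trans (max_le le_rfl ?_)
    have h3 : k * wI F c χ t₁ * (t - t₁) ≤ 1 / 400 := by
      refine le_trans ?_ hkw
      refine mul_le_mul_of_nonneg_left ?_ (mul_nonneg hk.le (hw0 t₁))
      linarith [ht.2]
    nlinarith
  have hτ : 0 < T - t₁ := by linarith [ht₁.2]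
  obtain ⟨t, ht, ht0, q, hq⟩ := hU (2 / (T - t₁)) ((t₁ + T) / 2) (by linarith)
  have h1 := hkey t ⟨by linarith, ht.2⟩ q
  have h2 : (T - t₁) / 2 < t - t₁ := by linarith
  have h3 : 2 / (T - t₁) * ((T - t₁) / 2) = 1 := by
    field_simp
  have h4 : 0 < 2 / (T - t₁) := by positivity
  have h5 : 2 / (T - t₁) * ((T - t₁) / 2) < YF F q t * (t - t₁) :=
    mul_lt_mul'' hq h2 h4.le (by linarith)
  linarith

end Helper16.MS
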