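import Pool.Agent.Helper35.MS.StH

/-!
# Project MS (MP_925021_gt), module INC: the pinching at the initial time
-/

set_option autoImplicit false

namespace Helper16.MS

open Helper35.MS Helper35.PI Helper35.PI2 Helper32.CL
open scoped ContDiff Manifold Topology ENNReal BigOperators
open MeasureTheory Set Filter

private lemma slice {M V : Type} [TopologicalSpace M] [TopologicalSpace V] {I : Set ℝ}
    {g : M → ℝ → V} (h : CSTJ I g) (h0 : (0 : ℝ) ∈ I) : Continuous fun q => g q 0 := by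
  have h1 : Continuous fun q : M => (q, (0 : ℝ)) := by fun_prop
  have h2 := ContinuousOn.comp_continuous h h1 (fun q => ⟨mem_univ _, h0⟩)
  exact h2

theorem hINC (hSJ : StSJ) (hINI : StINI) (hCT0 : StCT0) (hCE0 : StCE0) : StINC := by
  intro N M _ _ _ _ I F hI h0 hS hP
  obtain ⟨c1, c2⟩ := hCT0 N M I F hS
  obtain ⟨hG, hGq⟩ := c1 0 h0
  obtain ⟨-, cH, cA, cZ⟩ := c2 hI
  -- pointwise
  have hpt : ∀ q, 0 ≤ xS F q 0 ∧ 0 ≤ vS F q 0 ∧
      sS F q 0 < fm0 (xS F q 0) - gm0 (xS F q 0) * Real.sqrt (vS F q 0) := by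
    intro q
    obtain ⟨m, a, b, hx, hs, hv, hθ⟩ := hSJ N M univ (fun q (_ : ℝ) => F q 0) hG 0 (mem_univ _) 1
      one_pos (by norm_num) (fun q => by
        show ‖F q 0‖ ^ 2 = 1 - 4 * 0
        rw [hS.sph q 0 h0]
        norm_num) q
    obtain ⟨e1, e2, e3, -, -⟩ := hGq q 0
    have ex : xS (fun q (_ : ℝ) => F q 0) q 0 = xS F q 0 := by
      unfold xS
      rw [e1]
    have es : sS (fun q (_ : ℝ) => F q 0) q 0 = sS F q 0 := by
      unfold sS
      rw [e1, e2]
    have ev : vS (fun q (_ : ℝ) => F q 0) q 0 = vS F q 0 := by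
      unfold vS
      rw [e1, e3]
    rw [ex] at hx
    rw [es] at hs
    rw [ev] at hv
    refine ⟨by rw [hx]; positivity, by rw [hv]; positivity, ?_⟩
    refine hINI (EE N) m a b (xS F q 0) (sS F q 0) (vS F q 0) hx hs hv fun θ => ?_
    obtain ⟨u, hu1, hu2⟩ := hθ θ
    rw [← hu2]
    have hp := hP q u hu1
    refine lt_of_eq_of_lt ?_ hp
    congr 2
    have hloc : loc (n := 2) F q 0 (chartAt (EE 2) q q) = F q 0 := by
      show F ((chartAt (EE 2) q).symm (chartAt (EE 2) q q)) 0 = F q 0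
      rw [OpenPartialHomeomorph.left_inv _ (mem_chart_source _ q)]
    have h3 : ∀ i j, (u i * u j) • hM (n := 2) F q 0 i j =
        (u i * u j) • sff (loc (n := 2) F q 0) (chartAt (EE 2) q q) i j +
          (gram (loc (n := 2) F q 0) (chartAt (EE 2) q q) i j * (u i * u j)) • F q 0 := by
      intro i j
      unfold hM sfs
      rw [hloc, smul_add, smul_smul, mul_comm (u i * u j) (gram _ _ i j)]
    simp_rw [h3, Finset.sum_add_distrib, ← Finset.sum_smul]
    rw [one_smul, div_one, one_smul]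
    have h4 : ∑ i, ∑ j, gram (loc (n := 2) F q 0) (chartAt (EE 2) q q) i j * (u i * u j) = 1 := hu1
    rw [h4, one_smul]
    rfl
  -- continuity
  have kH := slice cH h0
  have kA := slice cA h0
  have kZ := slice cZ h0
  have kx : Continuous fun q => xS F q 0 := by
    unfold xS
    exact ((continuous_const.mul (kH.norm.pow 2)).div_const _).sub continuous_const
  have ks : Continuous fun q => sS F q 0 := by
    unfold sS
    exact (continuous_const.mul ((continuous_const.mul kA).sub (kH.norm.pow 2))).div_const _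
  have kv : Continuous fun q => vS F q 0 := by
    unfold vS
    exact (continuous_const.mul (kZ.sub (((kH.norm.pow 2).pow 2).div_const _))).div_const _
  have kf : Continuous fun q => fm0 (xS F q 0) := by
    rw [continuous_iff_continuousAt]
    intro q
    have h1 := (hCE0.1 (xS F q 0) (hpt q).1).2.2.2.2.2.2.1
    exact ContinuousAt.comp (f := fun q => xS F q 0) h1.continuousAt kx.continuousAt
  have kg : Continuous fun q => gm0 (xS F q 0) := by
    rw [continuous_iff_continuousAt]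
    intro q
    have h1 := (hCE0.1 (xS F q 0) (hpt q).1).2.2.2.2.2.2.2.2.1
    exact ContinuousAt.comp (f := fun q => xS F q 0) h1.continuousAt kx.continuousAt
  have kD : Continuous fun q => fm0 (xS F q 0) - gm0 (xS F q 0) * Real.sqrt (vS F q 0) -
      sS F q 0 := (kf.sub (kg.mul kv.sqrt)).sub ks
  rcases isEmpty_or_nonempty M with hM | hM
  · exact ⟨1 / 1000, by norm_num, le_rfl, fun q => hM.elim q⟩
  obtain ⟨q0, -, hq0⟩ := isCompact_univ.exists_isMinOn (univ_nonempty (α := M)) kD.continuousOn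
  have hmin : ∀ q, fm0 (xS F q0 0) - gm0 (xS F q0 0) * Real.sqrt (vS F q0 0) - sS F q0 0 ≤
      fm0 (xS F q 0) - gm0 (xS F q 0) * Real.sqrt (vS F q 0) - sS F q 0 :=
    fun q => hq0 (mem_univ q)
  obtain ⟨d, hd⟩ : ∃ d, d = fm0 (xS F q0 0) - gm0 (xS F q0 0) * Real.sqrt (vS F q0 0) -
      sS F q0 0 := ⟨_, rfl⟩
  have hd0 : 0 < d := by
    have := (hpt q0).2.2
    linarith
  refine ⟨min (1 / 1000) d, lt_min (by norm_num) hd0, min_le_left _ _, fun q => ?_⟩
  have hε0 : 0 < min (1 / 1000) d := lt_min (by norm_num) hd0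
  have hεd : min (1 / 1000) d ≤ d := min_le_right _ _
  obtain ⟨ε, hε⟩ : ∃ ε, ε = min (1 / 1000) d := ⟨_, rfl⟩
  rw [← hε] at hε0 hεd ⊢
  obtain ⟨hx0, hv0, -⟩ := hpt q
  have hg0 := (hCE0.1 (xS F q 0) hx0).2.1
  have hg1 := (hCE0.1 (xS F q 0) hx0).2.2.1
  have hsq : Real.sqrt (vS F q 0 + ε ^ 2) ≤ Real.sqrt (vS F q 0) + ε := by
    rw [Real.sqrt_le_left (by positivity)]
    have := Real.sq_sqrt hv0
    nlinarith [Real.sqrt_nonneg (vS F q 0), mul_nonneg (Real.sqrt_nonneg (vS F q 0)) hε0.le]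
  have h1 := mul_le_mul_of_nonneg_left hsq hg0.le
  have h2 := hmin q
  unfold PhF
  have h3 : gm0 (xS F q 0) * ε ≤ 3 / 10 * ε := mul_le_mul_of_nonneg_right hg1 hε0.le
  rw [mul_add] at h1
  linarith

end Helper16.MS
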